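import Mathlib

/-!
# The extremal binomial sums

`beta k a` is the probability that a binomial variable with parameters `2k+a-1` and `1/2` lies in
the interval `[k, k+a-1]`.
-/

set_option autoImplicit false

open Finset

namespace Pool.Agent.Helper55.RL

/-- sum of binomial coefficients -/
noncomputable def W (N u v : ℕ) : ℝ := ∑ j ∈ Finset.Ico u v, (N.choose j : ℝ)

/-- central binomial probability of an interval of length `a` starting at `k` -/
noncomputable def beta (k a : ℕ) : ℝ := W (2 * k + a - 1) k (k + a) / 2 ^ (2 * k + a - 1)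

/-- increments of `beta` -/
noncomputable def del (k a : ℕ) : ℝ := beta k (a + 1) - beta k a

theorem W_self (N u : ℕ) : W N u u = 0 := by simp [W]

theorem W_nonneg (N u v : ℕ) : 0 ≤ W N u v := Finset.sum_nonneg fun _ _ => Nat.cast_nonneg _

theorem beta_zero_right (k : ℕ) : beta k 0 = 0 := by simp [beta, W_self]

theorem beta_nonneg (k a : ℕ) : 0 ≤ beta k a := div_nonneg (W_nonneg _ _ _) (by positivity)

theorem beta_zero_succ (a : ℕ) : beta 0 (a + 1) = 1 := by
  have h1 : 2 * 0 + (a + 1) - 1 = a := by omega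
  unfold beta W
  rw [h1, zero_add, ← Finset.range_eq_Ico]
  have h2 := Nat.sum_range_choose a
  have h3 : (∑ j ∈ Finset.range (a + 1), (a.choose j : ℝ)) = 2 ^ a := by exact_mod_cast h2
  rw [h3]
  exact div_self (by positivity)

theorem W_pascal (N u v : ℕ) : W (N + 1) (u + 1) (v + 1) = W N u v + W N (u + 1) (v + 1) := by
  unfold W
  rw [← Finset.sum_Ico_add' (fun j => ((N + 1).choose j : ℝ)) u v 1,
    ← Finset.sum_Ico_add' (fun j => (N.choose j : ℝ)) u v 1, ← Finset.sum_add_distrib]
  refine Finset.sum_congr rfl fun j _ => ?_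
  rw [Nat.choose_succ_succ]
  push_cast
  ring

theorem W_succ_right {N u v : ℕ} (h : u ≤ v) : W N u (v + 1) = W N u v + N.choose v := by
  unfold W
  rw [Finset.sum_Ico_succ_top h]

theorem W_succ_left {N u v : ℕ} (h : u < v) : W N u v = N.choose u + W N (u + 1) v := by
  unfold W
  rw [Finset.sum_eq_sum_Ico_succ_bot h]

theorem beta_succ_succ (k a : ℕ) :
    beta (k + 1) (a + 1) = (beta k (a + 2) + beta (k + 1) a) / 2 := by
  have h1 : 2 * (k + 1) + (a + 1) - 1 = 2 * k + a + 1 + 1 := by omega
  have h2 : 2 * k + (a + 2) - 1 = 2 * k + a + 1 := by omega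
  have h3 : 2 * (k + 1) + a - 1 = 2 * k + a + 1 := by omega
  unfold beta
  rw [h1, h2, h3]
  have h4 : k + 1 + (a + 1) = (k + a + 1) + 1 := by ring
  have h5 : k + (a + 2) = (k + a + 1) + 1 := by ring
  have h6 : k + 1 + a = k + a + 1 := by ring
  rw [h4, h5, h6, W_pascal, W_succ_right (N := 2 * k + a + 1) (u := k) (v := k + a + 1) (by omega),
    W_succ_right (N := 2 * k + a + 1) (u := k + 1) (v := k + a + 1) (by omega), pow_succ]
  field_simp
  ring

theorem del_succ (k a : ℕ) : del (k + 1) a = ((2 * k + a + 1).choose k : ℝ) / 2 ^ (2 * k + a + 1) := by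
  have h1 : 2 * (k + 1) + (a + 1) - 1 = 2 * k + a + 1 + 1 := by omega
  have h3 : 2 * (k + 1) + a - 1 = 2 * k + a + 1 := by omega
  unfold del beta
  rw [h1, h3]
  have h4 : k + 1 + (a + 1) = (k + a + 1) + 1 := by ring
  have h6 : k + 1 + a = k + a + 1 := by ring
  rw [h4, h6, W_pascal, W_succ_left (N := 2 * k + a + 1) (u := k) (v := k + a + 1) (by omega),
    W_succ_right (N := 2 * k + a + 1) (u := k + 1) (v := k + a + 1) (by omega), pow_succ]
  have h7 : (2 * k + a + 1).choose (k + a + 1) = (2 * k + a + 1).choose k := by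
    rw [← Nat.choose_symm (by omega : k ≤ 2 * k + a + 1)]
    congr 1
    omega
  rw [h7]
  field_simp
  ring

theorem del_zero_zero : del 0 0 = 1 := by
  unfold del; rw [beta_zero_succ, beta_zero_right]; ring

theorem del_zero_succ (a : ℕ) : del 0 (a + 1) = 0 := by
  unfold del; rw [beta_zero_succ, beta_zero_succ]; ring

theorem del_nonneg (k a : ℕ) : 0 ≤ del k a := by
  rcases k with _ | k
  · rcases a with _ | a
    · rw [del_zero_zero]; norm_num
    · rw [del_zero_succ]
  · rw [del_succ]; positivity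

theorem choose_le_succ {M m : ℕ} (h : 2 * m + 1 ≤ M) : M.choose m ≤ M.choose (m + 1) := by
  rcases Nat.lt_or_ge m (M / 2) with h1 | h1
  · exact Nat.choose_le_succ_of_lt_half_left h1
  · have h2 : M = 2 * m + 1 := by omega
    rw [h2]
    exact (Nat.choose_symm_half m).ge

theorem del_anti_succ (k a : ℕ) : del k (a + 1) ≤ del k a := by
  rcases k with _ | k
  · rw [del_zero_succ]; exact del_nonneg _ _
  · rw [del_succ, del_succ]
    have h1 : 2 * k + (a + 1) + 1 = (2 * k + a + 1) + 1 := by ring
    rw [h1, pow_succ, div_le_div_iff₀ (by positivity) (by positivity)]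
    have h2 : ((2 * k + a + 1 + 1).choose k : ℝ) ≤ 2 * (2 * k + a + 1).choose k := by
      have : (2 * k + a + 1 + 1).choose k ≤ 2 * (2 * k + a + 1).choose k := by
        rcases k with _ | k
        · simp
        · rw [Nat.choose_succ_succ']
          have := choose_le_succ (M := 2 * (k + 1) + a + 1) (m := k) (by omega)
          omega
      exact_mod_cast this
    have h3 : (0 : ℝ) < 2 ^ (2 * k + a + 1) := by positivity
    nlinarith

theorem del_anti {k a b : ℕ} (h : a ≤ b) : del k b ≤ del k a := by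
  induction b, h using Nat.le_induction with
  | base => exact le_rfl
  | succ b _ ih => exact (del_anti_succ k b).trans ih

theorem del_cross (k b : ℕ) : del k (b + 2) ≤ del (k + 1) b := by
  rcases k with _ | m
  · rw [del_zero_succ]; exact del_nonneg _ _
  · rw [del_succ, del_succ]
    have h1 : 2 * m + (b + 2) + 1 = 2 * m + b + 3 := by ring
    have h2 : 2 * (m + 1) + b + 1 = 2 * m + b + 3 := by ring
    rw [h1, h2]
    have h3 : ((2 * m + b + 3).choose m : ℝ) ≤ (2 * m + b + 3).choose (m + 1) := by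
      exact_mod_cast choose_le_succ (M := 2 * m + b + 3) (m := m) (by omega)
    exact div_le_div_of_nonneg_right h3 (by positivity)

theorem beta_succ (k a : ℕ) : beta k (a + 1) = beta k a + del k a := by
  unfold del; ring

theorem beta_mono {k a b : ℕ} (h : a ≤ b) : beta k a ≤ beta k b := by
  induction b, h using Nat.le_induction with
  | base => exact le_rfl
  | succ b _ ih => rw [beta_succ]; linarith [del_nonneg k b]

theorem beta_add_le (k c t : ℕ) : beta k (c + t) ≤ beta k c + t * del k c := by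
  induction t with
  | zero => simp
  | succ t ih =>
    rw [← add_assoc, beta_succ]
    have := del_anti (k := k) (show c ≤ c + t by omega)
    push_cast
    linarith

theorem le_beta_add (k c t : ℕ) : beta k c + t * del k (c + t) ≤ beta k (c + t) := by
  induction t with
  | zero => simp
  | succ t ih =>
    rw [← add_assoc, beta_succ]
    have h1 := del_anti_succ k (c + t)
    have h2 : (t : ℝ) * del k (c + t + 1) ≤ t * del k (c + t) :=
      mul_le_mul_of_nonneg_left h1 (Nat.cast_nonneg t)
    push_cast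
    linarith

/-- the key inequality -/
theorem beta_key {k a p q : ℕ} (hpq : q < p) (h : p + q ≤ 2 * (a + 1)) :
    beta k p + beta (k + 1) q ≤ 2 * beta (k + 1) (a + 1) := by
  obtain ⟨t, ht⟩ : ∃ t, a = q + t := ⟨a - q, by omega⟩
  subst ht
  have h1 : beta k p ≤ beta k (q + t + 2 + t) := beta_mono (by omega)
  have h2 := beta_add_le k (q + t + 2) t
  have h3 := le_beta_add (k + 1) q t
  have h4 := del_cross k (q + t)
  have h5 : (t : ℝ) * del k (q + t + 2) ≤ t * del (k + 1) (q + t) :=
    mul_le_mul_of_nonneg_left h4 (Nat.cast_nonneg t)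
  rw [beta_succ_succ]
  linarith

theorem beta_one (k : ℕ) : beta k 1 = (k.centralBinom : ℝ) / 4 ^ k := by
  unfold beta
  have h1 : 2 * k + 1 - 1 = 2 * k := by omega
  rw [h1, W_succ_right le_rfl, W_self, zero_add, Nat.centralBinom_eq_two_mul_choose, pow_mul]
  norm_num

theorem centralBinom_sq (k : ℕ) : k.centralBinom ^ 2 * (2 * k + 1) ≤ 16 ^ k := by
  induction k with
  | zero => simp [Nat.centralBinom]
  | succ k ih =>
    have h1 := Nat.succ_mul_centralBinom_succ k
    have h2 : (k + 1) ^ 2 * ((k + 1).centralBinom ^ 2 * (2 * (k + 1) + 1)) ≤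
        (k + 1) ^ 2 * 16 ^ (k + 1) := by
      calc (k + 1) ^ 2 * ((k + 1).centralBinom ^ 2 * (2 * (k + 1) + 1))
          = ((k + 1) * (k + 1).centralBinom) ^ 2 * (2 * k + 3) := by ring
        _ = (2 * (2 * k + 1) * k.centralBinom) ^ 2 * (2 * k + 3) := by rw [h1]
        _ = (k.centralBinom ^ 2 * (2 * k + 1)) * (4 * ((2 * k + 1) * (2 * k + 3))) := by ring
        _ ≤ 16 ^ k * (4 * ((2 * k + 1) * (2 * k + 3))) := Nat.mul_le_mul_right _ ih
        _ ≤ 16 ^ k * (16 * (k + 1) ^ 2) := by
            apply Nat.mul_le_mul_left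
            nlinarith
        _ = (k + 1) ^ 2 * 16 ^ (k + 1) := by ring
    exact Nat.le_of_mul_le_mul_left h2 (by positivity)

theorem beta_one_sq (k : ℕ) : beta k 1 ^ 2 * (2 * k + 1) ≤ 1 := by
  rw [beta_one, div_pow, div_mul_eq_mul_div, div_le_one (by positivity)]
  have h := centralBinom_sq k
  have h1 : ((4 : ℝ) ^ k) ^ 2 = 16 ^ k := by
    rw [← pow_mul, mul_comm, pow_mul]; norm_num
  rw [h1]
  exact_mod_cast h

theorem beta_le (k a : ℕ) : beta k a ≤ a * beta k 1 := by
  have h := beta_add_le k 0 a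
  rw [beta_zero_right, zero_add, zero_add] at h
  have h1 : del k 0 = beta k 1 := by unfold del; rw [beta_zero_right]; ring
  rwa [h1] at h

theorem beta_sq (k a : ℕ) : beta k a ^ 2 * (2 * k + 1) ≤ a ^ 2 := by
  have h1 := beta_le k a
  have h2 := beta_one_sq k
  have h3 := beta_nonneg k a
  have h4 : beta k a ^ 2 ≤ (a * beta k 1) ^ 2 := pow_le_pow_left₀ h3 h1 2
  have h5 : (0 : ℝ) ≤ 2 * k + 1 := by positivity
  calc beta k a ^ 2 * (2 * k + 1) ≤ (a * beta k 1) ^ 2 * (2 * k + 1) :=
        mul_le_mul_of_nonneg_right h4 h5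
    _ = (a : ℝ) ^ 2 * (beta k 1 ^ 2 * (2 * k + 1)) := by ring
    _ ≤ (a : ℝ) ^ 2 * 1 := mul_le_mul_of_nonneg_left h2 (by positivity)
    _ = a ^ 2 := mul_one _

end Pool.Agent.Helper55.RL
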