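import Pool.Agent.Helper55.RL.Beta

/-!
# Read-once branching programs of bounded congestion
-/

set_option autoImplicit false

open Finset

namespace Pool.Agent.Helper55.RL

open Classical in
section

variable {V : Type*}

/-- The state of the program `f` with initial state `s` after it has read the bits
`b 0, …, b (n-1)`: at time `i` the program moves from the state `x` to the state `f i x c`, where
`c` is the bit it reads. -/
def st (f : ℕ → V → Bool → V) (s : V) : (n : ℕ) → (Fin n → Bool) → V
  | 0, _ => s
  | n + 1, b => f n (st f s n (fun i => b i.castSucc)) (b (Fin.last n))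

/-- The states reachable at time `n`. -/
noncomputable def reach (f : ℕ → V → Bool → V) (s : V) (n : ℕ) : Finset V :=
  (Finset.univ : Finset (Fin n → Bool)).image (st f s n)

/-- `w` is a system of weights for the program `(f, s)` of length `n` with the set `A` of
accepting states.  Weights are natural numbers; the reachable accepting states have positive
weight; a reachable state with a successor of positive weight has positive weight; and for each
state `y` of positive weight the total weight entering `y` from reachable states (a state `x`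
contributes its weight once for every bit which leads from `x` to `y`) is at most twice the weight
of `y`. -/
structure IsWeight (f : ℕ → V → Bool → V) (s : V) (n : ℕ) (A : Finset V) (w : ℕ → V → ℕ) :
    Prop where
  acc : ∀ y ∈ A, y ∈ reach f s n → 1 ≤ w n y
  back : ∀ i < n, ∀ x ∈ reach f s i, ∀ c, 1 ≤ w (i + 1) (f i x c) → 1 ≤ w i x
  flow : ∀ i < n, ∀ y, 1 ≤ w (i + 1) y →
    ∑ x ∈ reach f s i, ∑ c : Bool, (if f i x c = y then w i x else 0) ≤ 2 * w (i + 1) y

/-- The number of bit strings of length `n` which lead to a state in `A`. -/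
noncomputable def cnt (f : ℕ → V → Bool → V) (s : V) (n : ℕ) (A : Finset V) : ℕ :=
  ((Finset.univ : Finset (Fin n → Bool)).filter fun b => st f s n b ∈ A).card

/-- distance of `b` from the first `n` bits of `u` -/
def bdist (u : ℕ → Bool) {n : ℕ} (b : Fin n → Bool) : ℕ := ∑ i, if b i = u i then 0 else 1

theorem bdist_succ (u : ℕ → Bool) {n : ℕ} (b : Fin (n + 1) → Bool) :
    bdist u b = bdist u (fun i => b i.castSucc) + (if b (Fin.last n) = u n then 0 else 1) := by
  unfold bdist
  rw [Fin.sum_univ_castSucc]
  rfl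

variable (f : ℕ → V → Bool → V) (s : V)

theorem st_mem (n : ℕ) (b : Fin n → Bool) : st f s n b ∈ reach f s n :=
  Finset.mem_image_of_mem _ (Finset.mem_univ _)

theorem reach_succ {n : ℕ} {x : V} (hx : x ∈ reach f s n) (c : Bool) :
    f n x c ∈ reach f s (n + 1) := by
  obtain ⟨b, -, rfl⟩ := Finset.mem_image.1 hx
  refine Finset.mem_image.2 ⟨Fin.snoc (α := fun _ => Bool) b c, Finset.mem_univ _, ?_⟩
  simp only [st, Fin.snoc_castSucc, Fin.snoc_last]

/-- number of bits leading from `x` into `A` -/
noncomputable def hits (n : ℕ) (A : Finset V) (x : V) : ℕ :=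
  ∑ c : Bool, if f n x c ∈ A then 1 else 0

theorem hits_eq (n : ℕ) (A : Finset V) (x : V) :
    hits f n A x = (if f n x true ∈ A then 1 else 0) + (if f n x false ∈ A then 1 else 0) := by
  unfold hits
  rw [Fintype.sum_bool]

theorem cnt_succ_sum (n : ℕ) (A : Finset V) :
    cnt f s (n + 1) A = ∑ b : Fin n → Bool, hits f n A (st f s n b) := by
  unfold cnt
  rw [Finset.card_filter, ← (Fin.snocEquiv (fun _ : Fin (n + 1) => Bool)).sum_comp,
    Fintype.sum_prod_type, Finset.sum_comm]
  refine Finset.sum_congr rfl fun b _ => ?_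
  unfold hits
  refine Finset.sum_congr rfl fun c _ => ?_
  simp only [st, Fin.snocEquiv, Equiv.coe_fn_mk, Fin.snoc_castSucc, Fin.snoc_last]

theorem cnt_succ (n : ℕ) (A : Finset V) :
    cnt f s (n + 1) A = cnt f s n ((reach f s n).filter fun x => 1 ≤ hits f n A x) +
      cnt f s n ((reach f s n).filter fun x => 2 ≤ hits f n A x) := by
  rw [cnt_succ_sum]
  unfold cnt
  rw [Finset.card_filter, Finset.card_filter, ← Finset.sum_add_distrib]
  refine Finset.sum_congr rfl fun b _ => ?_
  simp only [Finset.mem_filter, st_mem, true_and]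
  rw [hits_eq]
  split_ifs <;> simp_all

theorem weight_step {w : ℕ → V → ℕ} (n : ℕ) (A : Finset V)
    (hw : ∀ y ∈ A, ∑ x ∈ reach f s n, ∑ c : Bool, (if f n x c = y then w n x else 0) ≤
      2 * w (n + 1) y) :
    ∑ x ∈ (reach f s n).filter (fun x => 1 ≤ hits f n A x), w n x +
      ∑ x ∈ (reach f s n).filter (fun x => 2 ≤ hits f n A x), w n x ≤
      2 * ∑ y ∈ A, w (n + 1) y := by
  have h1 : ∑ x ∈ (reach f s n).filter (fun x => 1 ≤ hits f n A x), w n x +
      ∑ x ∈ (reach f s n).filter (fun x => 2 ≤ hits f n A x), w n x =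
      ∑ x ∈ reach f s n, hits f n A x * w n x := by
    rw [Finset.sum_filter, Finset.sum_filter, ← Finset.sum_add_distrib]
    refine Finset.sum_congr rfl fun x _ => ?_
    rw [hits_eq]
    split_ifs <;> simp_all
    ring
  have h2 : ∑ x ∈ reach f s n, hits f n A x * w n x =
      ∑ y ∈ A, ∑ x ∈ reach f s n, ∑ c : Bool, (if f n x c = y then w n x else 0) := by
    rw [Finset.sum_comm]
    refine Finset.sum_congr rfl fun x _ => ?_
    rw [Finset.sum_comm]
    unfold hits
    rw [Finset.sum_mul]
    refine Finset.sum_congr rfl fun c _ => ?_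
    rw [Finset.sum_ite_eq]
    split_ifs <;> simp
  rw [h1, h2, Finset.mul_sum]
  exact Finset.sum_le_sum fun y hy => hw y hy

theorem cnt_le (n : ℕ) (A : Finset V) : cnt f s n A ≤ 2 ^ n := by
  unfold cnt
  refine (Finset.card_le_univ _).trans ?_
  simp

/-- The main inequality. -/
theorem main_aux {w : ℕ → V → ℕ} (u : ℕ → Bool) (N : ℕ)
    (hback : ∀ i < N, ∀ x ∈ reach f s i, ∀ c, 1 ≤ w (i + 1) (f i x c) → 1 ≤ w i x)
    (hflow : ∀ i < N, ∀ y, 1 ≤ w (i + 1) y →
      ∑ x ∈ reach f s i, ∑ c : Bool, (if f i x c = y then w i x else 0) ≤ 2 * w (i + 1) y)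
    (n : ℕ) : n ≤ N → ∀ (k : ℕ) (A : Finset V), (∀ y ∈ A, 1 ≤ w n y) →
    (∀ b : Fin n → Bool, bdist u b < k → st f s n b ∉ A) →
    (cnt f s n A : ℝ) ≤ 2 ^ n * beta k (∑ y ∈ A, w n y) := by
  induction n with
  | zero =>
    intro _ k A hAw hA
    by_cases hs : s ∈ A
    · have hk : k = 0 := by
        by_contra hk
        exact hA (fun i => i.elim0) (by simp [bdist]; omega) hs
      subst hk
      have h1 : 1 ≤ ∑ y ∈ A, w 0 y :=
        (hAw s hs).trans (Finset.single_le_sum (fun _ _ => Nat.zero_le _) hs)
      obtain ⟨a, ha⟩ := Nat.exists_eq_add_of_le' h1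
      rw [ha, beta_zero_succ]
      have := cnt_le f s 0 A
      simp only [pow_zero, mul_one]
      exact_mod_cast this
    · have h0 : cnt f s 0 A = 0 := by
        unfold cnt
        rw [Finset.card_eq_zero, Finset.filter_eq_empty_iff]
        intro b _
        exact hs
      rw [h0]
      simp only [Nat.cast_zero]
      exact mul_nonneg (by positivity) (beta_nonneg _ _)
  | succ n ih =>
    intro hnN k A hAw hA
    have hn : n < N := hnN
    -- some general facts
    set P := (reach f s n).filter (fun x => 1 ≤ hits f n A x) with hP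
    set Q := (reach f s n).filter (fun x => 2 ≤ hits f n A x) with hQ
    have hQP : Q ⊆ P := by
      intro x hx
      rw [hQ, Finset.mem_filter] at hx
      rw [hP, Finset.mem_filter]
      exact ⟨hx.1, by omega⟩
    have hcnt := cnt_succ f s n A
    have hwt := weight_step f s n A (fun y hy => hflow n hn y (hAw y hy))
    rw [← hP, ← hQ] at hcnt hwt
    have hex : ∀ x ∈ P, ∃ c, f n x c ∈ A := by
      intro x hx
      rw [hP, Finset.mem_filter, hits_eq] at hx
      by_contra h
      push Not at h
      rw [if_neg (h true), if_neg (h false)] at hx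
      exact absurd hx.2 (by norm_num)
    have hall : ∀ x ∈ Q, ∀ c, f n x c ∈ A := by
      intro x hx
      rw [hQ, Finset.mem_filter, hits_eq] at hx
      have h2 := hx.2
      by_contra h
      push Not at h
      obtain ⟨c, hc⟩ := h
      cases c
      · rw [if_neg hc] at h2
        split_ifs at h2 <;> omega
      · rw [if_neg hc] at h2
        split_ifs at h2 <;> omega
    have hPw : ∀ x ∈ P, 1 ≤ w n x := by
      intro x hx
      obtain ⟨c, hc⟩ := hex x hx
      exact hback n hn x (Finset.mem_filter.1 hx).1 c (hAw _ hc)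
    have hQk : ∀ b : Fin n → Bool, bdist u b < k → st f s n b ∉ Q := by
      intro b hb hbQ
      have h1 : f n (st f s n b) (u n) ∈ A := hall _ hbQ _
      have h2 := hA (Fin.snoc (α := fun _ => Bool) b (u n)) (by
        rw [bdist_succ]
        simp only [Fin.snoc_castSucc, Fin.snoc_last]
        simpa using hb)
      apply h2
      simp only [st, Fin.snoc_castSucc, Fin.snoc_last]
      exact h1
    have hPk : ∀ b : Fin n → Bool, bdist u b + 1 < k → st f s n b ∉ P := by
      intro b hb hbP
      obtain ⟨c, hc⟩ := hex _ hbP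
      have h2 := hA (Fin.snoc (α := fun _ => Bool) b c) (by
        rw [bdist_succ]
        simp only [Fin.snoc_castSucc, Fin.snoc_last]
        have h3 : (if c = u n then 0 else 1) ≤ 1 := by split_ifs <;> omega
        have h4 : bdist u (fun i => b i) = bdist u b := rfl
        omega)
      apply h2
      simp only [st, Fin.snoc_castSucc, Fin.snoc_last]
      exact hc
    by_cases hPQ : P = Q
    · rw [hPQ] at hcnt hwt
      have h1 : ∑ x ∈ Q, w n x ≤ ∑ y ∈ A, w (n + 1) y := by omega
      have h2 := ih hn.le k Q (fun x hx => hPw x (hQP hx)) hQk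
      have h3 := beta_mono (k := k) h1
      rw [hcnt]
      push_cast
      rw [pow_succ]
      have h4 : (2 : ℝ) ^ n * beta k (∑ x ∈ Q, w n x) ≤
          2 ^ n * beta k (∑ y ∈ A, w (n + 1) y) :=
        mul_le_mul_of_nonneg_left h3 (by positivity)
      linarith
    · obtain ⟨x, hxP, hxQ⟩ : ∃ x ∈ P, x ∉ Q := by
        by_contra h
        push Not at h
        exact hPQ (Finset.Subset.antisymm h hQP)
      have hlt : ∑ x ∈ Q, w n x < ∑ x ∈ P, w n x :=
        Finset.sum_lt_sum_of_subset hQP hxP hxQ (hPw x hxP) fun _ _ _ => Nat.zero_le _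
      obtain ⟨a, ha⟩ : ∃ a, ∑ y ∈ A, w (n + 1) y = a + 1 :=
        ⟨∑ y ∈ A, w (n + 1) y - 1, by omega⟩
      rw [ha] at hwt ⊢
      rcases k with _ | k
      · rw [beta_zero_succ, mul_one]
        exact_mod_cast cnt_le f s (n + 1) A
      · have h1 := ih hn.le k P hPw (fun b hb => hPk b (by omega))
        have h2 := ih hn.le (k + 1) Q (fun x hx => hPw x (hQP hx)) hQk
        have h3 := beta_key (k := k) hlt hwt
        rw [hcnt]
        push_cast
        have h4 : (2 : ℝ) ^ n * (beta k (∑ x ∈ P, w n x) + beta (k + 1) (∑ x ∈ Q, w n x)) ≤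
            2 ^ n * (2 * beta (k + 1) (a + 1)) :=
          mul_le_mul_of_nonneg_left h3 (by positivity)
        rw [pow_succ]
        linarith

/-- The main inequality for a program with weights. -/
theorem main_ineq {w : ℕ → V → ℕ} {n : ℕ} {A : Finset V} (hw : IsWeight f s n A w)
    (u : ℕ → Bool) (k : ℕ) (hA : ∀ b : Fin n → Bool, bdist u b < k → st f s n b ∉ A) :
    (cnt f s n A : ℝ) / 2 ^ n ≤ beta k (∑ y ∈ A, w n y) := by
  have h1 := main_aux f s u n hw.back hw.flow n le_rfl k (A.filter fun y => y ∈ reach f s n)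
    (fun y hy => hw.acc y (Finset.mem_filter.1 hy).1 (Finset.mem_filter.1 hy).2)
    (fun b hb h => hA b hb (Finset.mem_filter.1 h).1)
  have h2 : cnt f s n (A.filter fun y => y ∈ reach f s n) = cnt f s n A := by
    unfold cnt
    congr 1
    ext b
    simp only [Finset.mem_filter, Finset.mem_univ, true_and, st_mem, and_true]
  have h3 : ∑ y ∈ A.filter (fun y => y ∈ reach f s n), w n y ≤ ∑ y ∈ A, w n y :=
    Finset.sum_le_sum_of_subset (Finset.filter_subset _ _)
  rw [h2] at h1
  rw [div_le_iff₀ (by positivity), mul_comm]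
  exact h1.trans (mul_le_mul_of_nonneg_left (beta_mono h3) (by positivity))

end

end Pool.Agent.Helper55.RL
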