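import Pool.Agent.Helper55.RL.Prog

/-!
# Sharpness: counting ones
-/

set_option autoImplicit false

open Finset

namespace Pool.Agent.Helper55.RL

/-- the program which counts ones -/
def cf : ℕ → ℕ → Bool → ℕ := fun _ x c => x + c.toNat

/-- The number of ones of a bit string. -/
def ones {n : ℕ} (b : Fin n → Bool) : ℕ := ∑ i, (b i).toNat

theorem ones_succ {n : ℕ} (b : Fin (n + 1) → Bool) :
    ones b = ones (fun i => b i.castSucc) + (b (Fin.last n)).toNat := by
  unfold ones
  rw [Fin.sum_univ_castSucc]

theorem st_cf (n : ℕ) (b : Fin n → Bool) : st cf 0 n b = ones b := by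
  induction n with
  | zero => simp [st, ones]
  | succ n ih =>
    rw [ones_succ, st, ih]
    rfl

theorem flow_cf (n y : ℕ) :
    ∑ x ∈ reach cf 0 n, ∑ c : Bool, (if cf n x c = y then 1 else 0) ≤ 2 := by
  rw [Finset.sum_comm]
  have h : ∀ c : Bool, ∑ x ∈ reach cf 0 n, (if cf n x c = y then 1 else 0) ≤ 1 := by
    intro c
    rw [← Finset.card_filter]
    refine Finset.card_le_one.2 ?_
    intro u hu v hv
    rw [Finset.mem_filter] at hu hv
    have h1 := hu.2
    have h2 := hv.2
    unfold cf at h1 h2
    omega
  exact le_trans (b := ∑ c : Bool, 1) (Finset.sum_le_sum fun c _ => h c) (by simp)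

theorem isWeight_cf (n : ℕ) (A : Finset ℕ) : IsWeight cf 0 n A (fun _ _ => 1) := by
  refine ⟨fun _ _ _ => le_rfl, fun _ _ _ _ _ _ => le_rfl, fun i _ y _ => ?_⟩
  have h := flow_cf i y
  refine le_trans (le_of_eq ?_) h
  refine Finset.sum_congr rfl fun x _ => Finset.sum_congr rfl fun c _ => ?_
  by_cases hxy : cf i x c = y
  · rw [if_pos hxy, if_pos hxy]
  · rw [if_neg hxy, if_neg hxy]

theorem ones_eq_card {n : ℕ} (b : Fin n → Bool) :
    ones b = ((Finset.univ : Finset (Fin n)).filter fun i => b i = true).card := by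
  unfold ones
  rw [Finset.card_filter]
  refine Finset.sum_congr rfl fun i _ => ?_
  cases b i <;> simp

theorem card_ones (n j : ℕ) :
    ((Finset.univ : Finset (Fin n → Bool)).filter fun b => ones b = j).card = n.choose j := by
  have h1 : (Finset.powersetCard j (Finset.univ : Finset (Fin n))).card = n.choose j := by
    rw [Finset.card_powersetCard, Finset.card_univ, Fintype.card_fin]
  rw [← h1]
  refine Finset.card_nbij' (fun b => (Finset.univ : Finset (Fin n)).filter fun i => b i = true)
    (fun S i => decide (i ∈ S)) ?_ ?_ ?_ ?_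
  · intro b hb
    rw [Finset.mem_coe, Finset.mem_filter] at hb
    rw [Finset.mem_coe, Finset.mem_powersetCard, ← ones_eq_card]
    exact ⟨Finset.subset_univ _, hb.2⟩
  · intro S hS
    rw [Finset.mem_coe, Finset.mem_powersetCard] at hS
    rw [Finset.mem_coe, Finset.mem_filter, ones_eq_card]
    refine ⟨Finset.mem_univ _, ?_⟩
    rw [← hS.2]
    congr 1
    ext i
    simp
  · intro b _
    funext i
    simp
  · intro S _
    ext i
    simp

theorem cnt_cf (n u v : ℕ) : (cnt cf 0 n (Finset.Ico u v) : ℝ) = W n u v := by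
  have h0 : cnt cf 0 n (Finset.Ico u v) =
      ((Finset.univ : Finset (Fin n → Bool)).filter
        fun b => st cf 0 n b ∈ Finset.Ico u v).card := by
    unfold cnt
    congr
  rw [h0]
  unfold W
  have h1 : ((Finset.univ : Finset (Fin n → Bool)).filter fun b => st cf 0 n b ∈ Finset.Ico u v) =
      (Finset.Ico u v).biUnion fun j =>
        (Finset.univ : Finset (Fin n → Bool)).filter fun b => ones b = j := by
    ext b
    simp only [Finset.mem_filter, Finset.mem_univ, true_and, Finset.mem_biUnion, st_cf]
    constructor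
    · intro h; exact ⟨_, h, rfl⟩
    · rintro ⟨j, hj, rfl⟩; exact hj
  rw [h1, Finset.card_biUnion]
  · push_cast
    exact Finset.sum_congr rfl fun j _ => by rw [card_ones]
  · intro i _ j _ hij
    show Disjoint _ _
    rw [Finset.disjoint_left]
    intro b hb hb'
    rw [Finset.mem_filter] at hb hb'
    exact hij (hb.2.symm.trans hb'.2)

end Pool.Agent.Helper55.RL
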